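import Pool.Agent.U724.CH.KunF

/-!
# MP_638e8a_ag: Chow–Künneth decompositions of Lefschetz type of products and of their factors

Let `X` be a smooth projective variety over a field `k`, `d = dim X`, and `e` the intersection with the
class of an ample divisor, a self-correspondence of `X`. A Chow–Künneth decomposition
`π_i` (`i ∈ ℤ`; the class of `π_i` is the projector to `H ^ (d + i) (X)`) is of Lefschetz type for `e` if
`e π_i = π_(i + 2) e` and there is a correspondence `f` with `f π_(i + 2) = π_i f` and
`[e, f] = ∑ i π_i`; it is self-dual if `π_(-i)` is the transpose of `π_i`. (Curves, surfaces, abelian
varieties by Künnemann, ... have such decompositions.)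

Theorem. `X × Y` has a Chow–Künneth decomposition of Lefschetz type for `e × Δ + Δ × e'` if and only if
`X` has a self-dual one for `e` and `Y` has a self-dual one for `e'`.

It is well known that products of varieties with Chow–Künneth decompositions have Chow–Künneth
decompositions. For the factors of a product nothing like this is known in general, unless the motives
are finite-dimensional: the motive of `X` is a direct factor of the motive of `X × Y`, but the projectors
of `X × Y` do not induce projectors of `X`, and the embedding is not compatible with the Lefschetz
operators of `X` and `X × Y`. Nothing like finite-dimensionality, and none of the standard conjectures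
is assumed here. For instance the powers `X ^ n` have decompositions of Lefschetz type if and only if
`X` has.

Idea of the proof. `X × Y` has a decomposition of Lefschetz type for `E = e × Δ + Δ × e'` if and only
if there is a cycle `z` with `[[E, z], E] = 2 E` such that the class of `[E, z]` is the weight operator.
Let `a x = x × [Y]`, `b = p_*` and `ξ = Δ × e'`. The conditional expectation
`Φ (x) = ∑_(p + q = dim Y) b ξ ^ q x ξ ^ p a` satisfies `[e, Φ (x)] = Φ ([E, x])`, because the sum of the
terms with the commutators `[ξ, x]` is telescoping, and `Φ (E) = (dim Y + 1) (b ξ ^ (dim Y) a) e`. So
`Φ (z) / ((dim Y + 1) b ξ ^ (dim Y) a)` is a solution for `X`; the theorem of Jacobson and Morozov (in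
the algebra of correspondences, of infinite dimension) gives the decomposition, and `(z + z^t) / 2`
gives a self-dual one.

The setting. The Chow group `Chow X` of a scheme `X` (cycles of all dimensions with rational
coefficients modulo rational equivalence) is defined with the order of vanishing of Mathlib.
Intersection theory enters through the category `C` of Chow motives over `k` with the correspondences
of all degrees as morphisms: a symmetric monoidal category with objects `h (X)` for the varieties `X`
over `k`, self-dual, with `Hom (1, h (X)) = Chow X` and `h (X × Y) = h (X) ⊗ h (Y)` (structure
`Motives`). `R` is a Weil cohomology with coefficient field `K` of characteristic zero, a tensor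
functor from `C` to super vector spaces; `W` is the operator on the cohomology of `X` which is the
multiplication by `i - d` on `H ^ i (X)`. `IsAmple` says that `e` is equal to its transpose,
`e ^ (d + 1) = 0`, that it raises the degree by two, and that the intersection number of `α` and `e ^ d α` is
not zero, where `α` has degree `0` in the cohomology (the class of `X`).
-/

set_option autoImplicit false

open CategoryTheory MonoidalCategory Module
open Pool.Agent.Y112.SR Pool.Agent.U724.CH

namespace Pool.Agent.Results.MP_638e8a_ag.ProductsAndFactors

universe u u' v w

/-- The product of two varieties has a Chow–Künneth decomposition of Lefschetz type if and only if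
the two factors have self-dual ones. -/
theorem result {k : Type u} [Field k] {C : Type u'} [Category.{v} C] [Preadditive C]
    [MonoidalCategory C] [MonoidalPreadditive C] [SymmetricCategory C]
    [Linear ℚ C] [MonoidalLinear ℚ C] (M : Motives k C)
    {K : Type w} [Field K] [CharZero K] (R : SuperRealisation C K)
    (X Y : Sch k) (hX : M.IsVar X) (hY : M.IsVar Y)
    (W : Module.End K (M.Coh R X)) (hW : M.IsWeight R hX W)
    (W' : Module.End K (M.Coh R Y)) (hW' : M.IsWeight R hY W')
    (W'' : Module.End K (M.Coh R (prod X Y)))
    (hs : M.IsWeight R (M.isVar_prod X Y hX hY) W'') (hW'' : M.IsSumWeight R hX hY W W' W'')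
    (e : Chow (prod X X).left) (e' : Chow (prod Y Y).left) (d d' : ℕ) (α : Chow X.left)
    (α' : Chow Y.left) (he : M.IsAmple R hX W e d α) (he' : M.IsAmple R hY W' e' d' α') :
    M.HasLCK R (M.isVar_prod X Y hX hY) W''
      (M.box hX hY e (M.diag hY) + M.box hX hY (M.diag hX) e') (d + d' + 1) ↔
      M.LefschetzCK R hX W e (d + 1) ∧ M.LefschetzCK R hY W' e' (d' + 1) :=
  M.lck_prod R hX hY hW hW' hs.span hW'' he he'

end Pool.Agent.Results.MP_638e8a_ag.ProductsAndFactors
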