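import Pool.Agent.U3.QP.Sect

/-!
# Self-dual Chow-Künneth decompositions of quotients of products

Let `𝒱` be a class of smooth projective geometrically irreducible varieties over a field `k` which is
closed under products, with the Chow groups `C` with rational coefficients and a Weil cohomology
theory `H`. We consider triples `(G, X, ρ)` of a group `G`, a variety `X` and self-correspondences
`ρ g` of `X` (in the main examples an action of `G` on `X` by automorphisms, and `ρ g` is the graph of
`g`). Let `BuiltSD` be the smallest class of triples which contains

* the orthogonal actions (for example by automorphisms) of finite groups on the motives of the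
  varieties `X` whose lower half is finite-dimensional: for `n < dim X` the projection onto `H^n(X)` is
  induced by a correspondence which factors through sums of twists of motives of varieties `Y` for
  which the homologically trivial self-correspondences form a nilpotent ideal (such as all
  Kimura-finite `Y`, see `nilIdeal_of_kimura` in `Pool.Agent.U3.QP.Kim`). It need not be an idempotent,
  need not commute with the group, and nothing is assumed about the middle degree `n = dim X`, nor
  about the degrees above it;
* the orthogonal actions of finite groups on the motives of triangular varieties (surfaces, and
  varieties whose diagonal is a sum of correspondences through surfaces);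

and which is closed under

* products `X × Y`, with the diagonal action,
* powers `X^n`, with the groups which permute the factors and act on the factors by a given group,
* orthogonal sums of twisted summands which are cut out by linear combinations of the `ρ g`
  (quotients, blow-ups, ...).

**Theorem.** (1) For all `(G, X, ρ)` in the class `X` has a *self-dual* Chow-Künneth decomposition which
commutes with all `ρ g`. (2) If a group `G` acts on `X` by automorphisms and `(G, X)` is in the class,
then so is `(G, X/N)` for all finite normal subgroups `N` such that `X/N` is in `𝒱`. (3) If `G` is
finite, all smooth quotients `X/G` have self-dual Chow-Künneth decompositions. (4) Actions by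
automorphisms are orthogonal actions.

For example, let the finite group `G` act on abelian varieties, on complete intersections `X` of ample
divisors in abelian varieties or in products of curves (`H^n(X)` is cut out by a correspondence through
the ambient variety for `n < dim X`, see `lowerFinite_of_section` in `Pool.Agent.U3.QP.Sect`; the
middle cohomology of `X` is not known to be finite-dimensional), and on surfaces; then all smooth
quotients `(X_1 × ⋯ × X_n)/G` have self-dual Chow-Künneth decompositions.

The average of a Chow-Künneth decomposition over a group is not a decomposition. The proof lifts the
averages of the given correspondences, which generate nilpotent ideals together with the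
homologically trivial correspondences, to idempotents in the centraliser of the group, orthogonal to
each other and to their transposes, one after the other; the middle degree is the rest. For
triangular varieties one uses the nilpotent ideal of the strictly triangular correspondences instead
of the homologically trivial ones.
-/

set_option autoImplicit false

open CategoryTheory AlgebraicGeometry

universe u v w

namespace Pool.Agent.Results.MP_638e8a_ag.QuotientsOfProducts

open Pool.Agent.H914 Pool.Agent.H914.VarClass Pool.Agent.H914.VarClass.Obj Pool.Agent.W492.BB
  Pool.Agent.W550.Corr Pool.Agent.TH133 Pool.Agent.X308.S Pool.Agent.U981.EQ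
  Pool.Agent.U3.SD Pool.Agent.U3.QP

/-- **Equivariant self-dual Chow-Künneth decompositions, and quotients.** -/
theorem result {k : Type u} [Field k] {𝒱 : VarClass k} {C : TheoryData.{u, v, 0} 𝒱 ℚ} {K : Type w}
    [Field K] [IsChowProj C] {H : WeilTheoryData.{u, v, w} C K} [IsWeilProj H] :
    -- (1) the decomposition
    (∀ (G : Type) [Group G] (X : 𝒱.Obj) (ρ : G → C.A (X.prod X)), BuiltSD H G X ρ →
      ∃ π : ℕ → C.A (X.prod X), IsCK H X π ∧ IsSelfDual C π ∧
        ∀ (g : G) (i : ℕ), C.comp (ρ g) (π i) = C.comp (π i) (ρ g)) ∧
    -- (2) quotients by normal subgroups
    (∀ (G : Type) [Group G] (N : Subgroup G) [Fintype N] (X Z : 𝒱.Obj) (a : G → (X ⟶ X))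
      (b : G → (Z ⟶ Z)) (q : X ⟶ Z), ActsBy a → ActsBy b → (∀ g, a g ≫ q = q ≫ b g) →
      IsQuotient C (fun n : N => a n) q → BuiltSD H G X (fun g => C.graph (a g)) →
      BuiltSD H G Z (fun g => C.graph (b g))) ∧
    -- (3) quotients by finite groups
    (∀ (G : Type) [Group G] [Fintype G] (X Z : 𝒱.Obj) (a : G → (X ⟶ X)) (q : X ⟶ Z),
      IsQuotient C a q → BuiltSD H G X (fun g => C.graph (a g)) →
      ∃ π : ℕ → C.A (Z.prod Z), IsCK H Z π ∧ IsSelfDual C π) ∧
    -- (4) actions by automorphisms
    (∀ (G : Type) [Group G] (X : 𝒱.Obj) (a : G → (X ⟶ X)), ActsBy a →
      IsOrthAction C (fun g => C.graph (a g))) :=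
  ⟨fun _ _ _ _ h => eqSD_of_built h,
    fun _ _ N _ _ _ _ _ _ ha hb hab hq h => builtSD_quotient N ha hb hab hq h,
    fun _ _ _ _ _ _ _ hq h => exists_sd_quotient hq h,
    fun _ _ _ _ ha => isOrthAction_graph (H := H) ha⟩

end Pool.Agent.Results.MP_638e8a_ag.QuotientsOfProducts
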