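import Pool.Agent.U724.CH.Tr

/-!
# MP_638e8a_ag: Chow–Künneth decompositions of special fibres, and extensions of the base field

Let `X` be a smooth projective variety over a field `k`, and `e` the intersection with a divisor class
on `X`, a nilpotent self-correspondence of `X`. A Chow–Künneth decomposition `π_i` (`i ∈ ℤ`; the class of
`π_i` is the projector to `H ^ (dim X + i) (X)`) is of Lefschetz type for `e` if
`e π_i = π_(i + 2) e` and there is a correspondence `f` with `f π_(i + 2) = π_i f` and
`[e, f] = ∑ i π_i`; it is self-dual if `π_(-i)` is the transpose of `π_i`. (Curves, surfaces, abelian
varieties by Künnemann, ... have such decompositions.)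

Theorem. Let `X'` be a variety over a field `k'`, `e'` the intersection with a divisor class on `X'`, and
let `σ` be a transfer from `CH (X' × X')` to `CH (X × X)`: an additive map with
`σ (e' ∘ a) = e ∘ σ (a)`, `σ (a ∘ e') = σ (a) ∘ e` and `σ (e') = e`, which is compatible with the grading
of the cohomology. If `X'` has a Chow–Künneth decomposition of Lefschetz type for `e'`, not
necessarily self-dual, then `X` has a self-dual one for `e`.

Examples. (a) Special fibres. Let `S` be a regular integral scheme, `𝒳 → S` a smooth projective morphism,
`L` a divisor class on `𝒳`, `X = 𝒳_s` the fibre over a point `s` of `S`, over its residue field
`k = κ(s)`, and let `X'` be obtained from the generic fibre by an extension of the base field to a finitely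
generated extension `k'` of the function field of `S`. There is a chain of discrete valuation rings which
leads from `k'` to a finite extension `k''` of `κ(s)`; `σ` is the composite of the specialisation
homomorphisms (Fulton, 20.3), of the push-forward from `𝒳_s ⊗ k''` to `𝒳_s`, and of the division by the
degree of `k''` over `κ(s)`. So if the geometric generic fibre has a Chow–Künneth decomposition of
Lefschetz type, then every fibre has a self-dual one over its own residue field. (b) Extensions of the base
field (`S = Spec k`): `X` has such a decomposition over `k` if it has one over some extension field, for
instance over the algebraic closure of `k`, or over `ℂ` if `k` is a number field. The converse is clear, as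
the extension of scalars is a transfer in the other direction.

For general Chow–Künneth decompositions the specialisation leads to finite extensions of the residue
fields only: the push-forward of a projector is not a projector, and it is not known in general that a
Chow–Künneth decomposition over a finite extension of the base field gives one over the base field. No
finiteness condition on motives and none of the standard conjectures is assumed here.

Idea of the proof. `X` has a decomposition of Lefschetz type for `e` if and only if there is a `z` in
`CH (X × X)` such that `[[e, z], e] = 2 e` and the class of `[e, z]` is the weight operator. These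
conditions are affine linear in `z`, and a transfer is compatible with them. The theorem of Jacobson and
Morozov in the algebra of correspondences gives the decomposition, and `(z + z^t) / 2` a self-dual one.

The setting. The Chow group `Chow X` of a scheme `X` (cycles of all dimensions with rational
coefficients modulo rational equivalence) is defined with the order of vanishing of Mathlib.
Intersection theory enters through the category `C` of Chow motives over `k` with the correspondences
of all degrees as morphisms: a symmetric monoidal category with objects `h (X)` for the varieties `X`
over `k`, self-dual, with `Hom (1, h (X)) = Chow X` and `h (X × Y) = h (X) ⊗ h (Y)` (structure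
`Motives`), and the same for `k'`. `R` and `R'` are Weil cohomologies with coefficient fields of
characteristic zero, tensor functors to super vector spaces; `W` and `W'` are the operators on the
cohomology of `X` and `X'` which are the multiplication by `i - dim X` on `H ^ i`.
-/

set_option autoImplicit false

open CategoryTheory MonoidalCategory Module
open Pool.Agent.Y112.SR Pool.Agent.U724.CH

namespace Pool.Agent.Results.MP_638e8a_ag.SpecialFibres

universe u u' v w

/-- If there is a transfer from `X'` (for instance the generic fibre of a family, over an extension of
the function field) to `X` (for instance a special fibre), then Chow–Künneth decompositions of Lefschetz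
type of `X'` give self-dual ones of `X`. -/
theorem result {k : Type u} [Field k] {C : Type u'} [Category.{v} C] [Preadditive C]
    [MonoidalCategory C] [MonoidalPreadditive C] [SymmetricCategory C]
    [Linear ℚ C] [MonoidalLinear ℚ C] (M : Motives k C)
    {K : Type w} [Field K] [CharZero K] (R : SuperRealisation C K)
    {k' : Type u} [Field k'] {C' : Type u'} [Category.{v} C'] [Preadditive C']
    [MonoidalCategory C'] [MonoidalPreadditive C'] [SymmetricCategory C']
    [Linear ℚ C'] [MonoidalLinear ℚ C'] (M' : Motives k' C')
    {K' : Type w} [Field K'] [CharZero K'] (R' : SuperRealisation C' K')
    (X : Sch k) (hX : M.IsVar X) (W : Module.End K (M.Coh R X)) (hW : M.IsWeight R hX W)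
    (X' : Sch k') (hX' : M'.IsVar X') (W' : Module.End K' (M'.Coh R' X'))
    (hW' : M'.IsWeight R' hX' W')
    (e : Chow (prod X X).left) (he : M.IsTranspose hX e e) (N : ℕ) (hN : M.ring hX e ^ N = 0)
    (e' : Chow (prod X' X').left) (σ : Chow (prod X' X').left → Chow (prod X X).left)
    (hσ : M.IsTransfer M' R R' hX hX' W W' e e' σ) (N' : ℕ)
    (h : M'.HasLCK R' hX' W' e' N') :
    M.LefschetzCK R hX W e N :=
  M.lck_transfer hσ hW hW'.span he hN h

end Pool.Agent.Results.MP_638e8a_ag.SpecialFibres
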