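import Pool.Agent.U672.SF.Kim

/-!
# Chow-Künneth decompositions for schemes built from systems of equations with few terms

`k` is a perfect field and `D` the triangulated category of geometric motives over `k` with rational
coefficients, in the form of its standard properties (`MotiveFacts`); it contains the category of Chow
motives. `S` is the realization given by a Weil cohomology theory. The known facts on Kimura
finite-dimensional motives are assumed (`KimuraFacts`): stability under sums, tensor products, direct
factors and twists, and Kimura's nilpotence theorem.

The *excess* of a system of polynomials is the sum of (number of terms - 2) over its members with at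
least three terms.

**Theorem.** All smooth proper `X`, of any dimension, have a Chow-Künneth decomposition which can be obtained
from the following schemes by cutting and pasting, products of affine schemes and quotients by finite
free coverings (`Constructed 1`):
* the closed subschemes of affine spaces defined by a system `G` of excess at most two and polynomials `H`
  with any numbers of terms whose exponents are independent modulo the differences of the exponents
  of `G`; for instance all hypersurfaces with at most four terms, and all hypersurfaces with affinely
  independent exponents, singular or not;
* the schemes `∑ f_j (x_j) = g (y)`, where the `f_j` are polynomials in separate variables, each of them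
  quasi-homogeneous in at most two variables or a trilinear form with a block of at most three
  variables, and `g` is a function on an affine scheme of dimension at most one;
* all schemes of dimension at most one;
* all smooth proper schemes which are Kimura finite-dimensional and for which the Künneth projectors are
  algebraic.
More generally, if the smooth proper schemes of dimension at most `N` are Kimura finite-dimensional with algebraic
Künneth projectors, then this holds for all smooth proper schemes in the class `Constructed N` (the same with
excess at most `N + 1`, schemes of dimension at most `N`, and so on), and they have Chow-Künneth
decompositions.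

The projectors are constructed as follows. The motive of `X` is a direct factor of a sum of twists of
products of motives of the given smooth proper schemes; hence it is Kimura finite-dimensional and its
Künneth projectors are algebraic modulo homological equivalence; and they lift to orthogonal idempotents
with sum one, because the kernel of the realization consists of nilpotent elements.
-/

set_option autoImplicit false

open CategoryTheory MonoidalCategory AlgebraicGeometry Pool.Agent.TH137.DG Pool.Agent.Y116.UV
  Pool.Agent.Z125.UN Pool.Agent.U672.SF

namespace Pool.Agent.Results.MP_638e8a_ag.SystemsOfFewTerms

universe v u w

/-- The smooth proper scheme `X` has a Kimura finite-dimensional motive and algebraic Künneth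
projectors. -/
def Good {k : Type} [Field k] {C : Type u} [Category.{v} C] [MonoidalCategory C]
    [SymmetricCategory C] [Preadditive C] [Linear ℚ C] [Limits.HasZeroObject C] [HasShift C ℤ]
    [∀ n : ℤ, (shiftFunctor C n).Additive] [Pretriangulated C] {D : Motives k C} {F : Type}
    [Field F] (S : Realization.{v, u, w} D F) (X : Sch k) : Prop :=
  SmoothProper X ∧ IsKimura (D.M X) ∧ AllProjectors S (D.M X)

/-- **Theorem.** (1) Let the smooth proper schemes of dimension at most one be Kimura finite-dimensional with
algebraic Künneth projectors (this is known). Let `X` be a smooth proper scheme which is constructed
from systems of equations of excess at most two with further equations with independent exponents,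
schemes `∑ f_j (x_j) = g (y)` over curves, schemes of dimension at most one and smooth proper schemes which
are Kimura finite-dimensional with algebraic Künneth projectors. Then `X` is Kimura finite-dimensional with
algebraic Künneth projectors and has a Chow-Künneth decomposition. (2) The same with `N` instead of
one. -/
theorem result {k : Type} [Field k] {C : Type u} [Category.{v} C] [MonoidalCategory C]
    [SymmetricCategory C] [Preadditive C] [Linear ℚ C] [Limits.HasZeroObject C] [HasShift C ℤ]
    [∀ n : ℤ, (shiftFunctor C n).Additive] [Pretriangulated C] {D : Motives k C}
    (hD : MotiveFacts D) {F : Type} [Field F] [CharZero F] (S : Realization.{v, u, w} D F)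
    (hK : KimuraFacts S)
    (hcurves : ∀ X, SmoothProper X → topologicalKrullDim X.left ≤ (1 : ℕ) → Good S X) :
    (∀ X, SmoothProper X → Constructed 1 (Good S) X → Good S X ∧ ChowKunneth S (D.M X)) ∧
    ∀ N : ℕ, 1 ≤ N → (∀ X, SmoothProper X → topologicalKrullDim X.left ≤ N → Good S X) →
      ∀ X, SmoothProper X → Constructed N (Good S) X → Good S X ∧ ChowKunneth S (D.M X) := by
  have key : ∀ N : ℕ, 1 ≤ N →
      (∀ X, SmoothProper X → topologicalKrullDim X.left ≤ N → Good S X) →
      ∀ X, SmoothProper X → Constructed N (Good S) X → Good S X ∧ ChowKunneth S (D.M X) := by
    intro N hN h X hp hX
    have h1 := constructed_pure hD hN (fun X hX => hX.1) h X hX hp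
    have h2 := pure_kimura hK (fun X hX => hX.2.1) h1
    have h3 := pure_all hD (fun X hX => hX.2.2) h1
    exact ⟨⟨hp, h2, h3⟩, ck_of_nil h3 fun f hf => hK.nilpotent _ f h2 hf⟩
  exact ⟨key 1 le_rfl hcurves, key⟩

end Pool.Agent.Results.MP_638e8a_ag.SystemsOfFewTerms
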